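import Mathlib

set_option autoImplicit false

/-!
# Project TR, module LEARN5: typical elements of a row
-/

namespace Pool.Agent.H42.TR

open Finset

/-- the union of a chain of sets of small mass has small mass -/
theorem chain_mass {X τ : Type} (c : Finset X) (D : X → ℝ)
    (hD : ∀ x, 0 ≤ D x) (P : τ → X → Prop) [∀ t, DecidablePred (P t)] (A : Finset τ) (m : ℝ) (hm : 0 ≤ m)
    (hch : ∀ t ∈ A, ∀ t' ∈ A, (∀ x ∈ c, P t x → P t' x) ∨ (∀ x ∈ c, P t' x → P t x))
    (hs : ∀ t ∈ A, ∑ x ∈ c.filter (P t), D x ≤ m) :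
    ∑ x ∈ c.filter (fun x => ∃ t ∈ A, P t x), D x ≤ m := by
  classical
  have key : ∀ A' ⊆ A, (∀ x ∈ c, ¬ ∃ t ∈ A', P t x) ∨
      ∃ s ∈ A', ∀ x ∈ c, (∃ t ∈ A', P t x) → P s x := by
    intro A'
    induction A' using Finset.induction_on with
    | empty => intro _; left; rintro x _ ⟨t, ht, _⟩; simp at ht
    | insert a S ha ih =>
      intro hsub
      have haA : a ∈ A := hsub (mem_insert_self _ _)
      right
      rcases ih ((subset_insert _ _).trans hsub) with h | ⟨s, hs', h⟩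
      · refine ⟨a, mem_insert_self _ _, ?_⟩
        rintro x hx ⟨t, ht, htx⟩
        rcases mem_insert.1 ht with rfl | ht
        · exact htx
        · exact absurd ⟨t, ht, htx⟩ (h x hx)
      · have hsA : s ∈ A := hsub (mem_insert_of_mem hs')
        rcases hch a haA s hsA with h1 | h1
        · refine ⟨s, mem_insert_of_mem hs', ?_⟩
          rintro x hx ⟨t, ht, htx⟩
          rcases mem_insert.1 ht with rfl | ht
          · exact h1 x hx htx
          · exact h x hx ⟨t, ht, htx⟩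
        · refine ⟨a, mem_insert_self _ _, ?_⟩
          rintro x hx ⟨t, ht, htx⟩
          rcases mem_insert.1 ht with rfl | ht
          · exact htx
          · exact h1 x hx (h x hx ⟨t, ht, htx⟩)
  rcases key A (Subset.refl _) with h | ⟨s, hs', h⟩
  · have : c.filter (fun x => ∃ t ∈ A, P t x) = ∅ := filter_eq_empty_iff.2 fun x hx => h x hx
    rw [this, sum_empty]; exact hm
  · refine le_trans ?_ (hs s hs')
    refine sum_le_sum_of_subset_of_nonneg ?_ fun x _ _ => hD x
    intro x hx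
    rw [mem_filter] at hx ⊢
    exact ⟨hx.1, h x hx.1 hx.2⟩

/-- typical elements -/
theorem typical {X τ : Type} [DecidableEq X] [DecidableEq τ] (c : Finset X) (D : X → ℝ)
    (hD : ∀ x, 0 ≤ D x) (b : X → τ → Bool) (R H : Finset τ) (θ : ℝ) (hθ : 0 ≤ θ)
    (hn : ∀ x ∈ c, ∀ x' ∈ c, (∀ t ∈ R, b x t = true → b x' t = true) ∨
      (∀ t ∈ R, b x' t = true → b x t = true))
    (hl : ∀ t ∈ R, t ∉ H →
      ∑ x ∈ c.filter (fun x => b x t = true), D x ≤ θ * ∑ x ∈ c, D x ∨
      ∑ x ∈ c.filter (fun x => b x t = false), D x ≤ θ * ∑ x ∈ c, D x) :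
    ∃ Ty ⊆ c, ∑ x ∈ c \ Ty, D x ≤ 2 * θ * ∑ x ∈ c, D x ∧
      ∀ x ∈ Ty, ∀ x' ∈ Ty, (∀ t ∈ R, t ∈ H → b x t = b x' t) → ∀ t ∈ R, b x t = b x' t := by
  classical
  have hM : 0 ≤ θ * ∑ x ∈ c, D x := mul_nonneg hθ (sum_nonneg fun x _ => hD x)
  have hch : ∀ (β : Bool), ∀ t ∈ R, ∀ t' ∈ R,
      (∀ x ∈ c, b x t = β → b x t' = β) ∨ (∀ x ∈ c, b x t' = β → b x t = β) := by
    intro β t ht t' ht'
    by_contra hcon
    push Not at hcon
    obtain ⟨⟨x, hx, h1, h2⟩, x', hx', h3, h4⟩ := hcon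
    rcases hn x hx x' hx' with h | h
    · have e1 := h t ht
      have e2 := h t' ht'
      cases β <;> cases hb1 : b x t <;> cases hb2 : b x t' <;> cases hb3 : b x' t <;>
        cases hb4 : b x' t' <;> simp_all
    · have e1 := h t ht
      have e2 := h t' ht'
      cases β <;> cases hb1 : b x t <;> cases hb2 : b x t' <;> cases hb3 : b x' t <;>
        cases hb4 : b x' t' <;> simp_all
  set A := R.filter (fun t => t ∉ H ∧
    ∑ x ∈ c.filter (fun x => b x t = true), D x ≤ θ * ∑ x ∈ c, D x) with hA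
  set B := R.filter (fun t => t ∉ H ∧
    ∑ x ∈ c.filter (fun x => b x t = false), D x ≤ θ * ∑ x ∈ c, D x) with hB
  have hUA : ∑ x ∈ c.filter (fun x => ∃ t ∈ A, b x t = true), D x ≤ θ * ∑ x ∈ c, D x := by
    refine chain_mass c D hD (fun t x => b x t = true) A _ hM ?_ ?_
    · intro t ht t' ht'
      exact hch true t (mem_filter.1 ht).1 t' (mem_filter.1 ht').1
    · intro t ht
      exact (mem_filter.1 ht).2.2
  have hUB : ∑ x ∈ c.filter (fun x => ∃ t ∈ B, b x t = false), D x ≤ θ * ∑ x ∈ c, D x := by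
    refine chain_mass c D hD (fun t x => b x t = false) B _ hM ?_ ?_
    · intro t ht t' ht'
      exact hch false t (mem_filter.1 ht).1 t' (mem_filter.1 ht').1
    · intro t ht
      exact (mem_filter.1 ht).2.2
  refine ⟨c.filter (fun x => (∀ t ∈ A, b x t = false) ∧ ∀ t ∈ B, b x t = true),
    filter_subset _ _, ?_, ?_⟩
  · have hsub : c \ c.filter (fun x => (∀ t ∈ A, b x t = false) ∧ ∀ t ∈ B, b x t = true) ⊆
        c.filter (fun x => ∃ t ∈ A, b x t = true) ∪ c.filter (fun x => ∃ t ∈ B, b x t = false) := by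
      intro x hx
      rw [mem_sdiff, mem_filter] at hx
      rw [mem_union, mem_filter, mem_filter]
      by_cases h1 : ∃ t ∈ A, b x t = true
      · exact Or.inl ⟨hx.1, h1⟩
      · right
        refine ⟨hx.1, ?_⟩
        by_contra h2
        refine hx.2 ⟨hx.1, ?_, ?_⟩
        · intro t ht
          by_contra h3
          exact h1 ⟨t, ht, by simpa using h3⟩
        · intro t ht
          by_contra h3
          exact h2 ⟨t, ht, by simpa using h3⟩
    refine (sum_le_sum_of_subset_of_nonneg hsub fun x _ _ => hD x).trans ?_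
    have h1 := sum_union_inter (s₁ := c.filter (fun x => ∃ t ∈ A, b x t = true))
      (s₂ := c.filter (fun x => ∃ t ∈ B, b x t = false)) (f := D)
    have h2 : 0 ≤ ∑ x ∈ c.filter (fun x => ∃ t ∈ A, b x t = true) ∩
      c.filter (fun x => ∃ t ∈ B, b x t = false), D x := sum_nonneg fun x _ => hD x
    linarith
  · intro x hx x' hx' hH t ht
    rw [mem_filter] at hx hx'
    by_cases h1 : t ∈ H
    · exact hH t ht h1
    · rcases hl t ht h1 with h2 | h2
      · have h3 : t ∈ A := by rw [hA, mem_filter]; exact ⟨ht, h1, h2⟩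
        rw [hx.2.1 t h3, hx'.2.1 t h3]
      · have h3 : t ∈ B := by rw [hB, mem_filter]; exact ⟨ht, h1, h2⟩
        rw [hx.2.2 t h3, hx'.2.2 t h3]

end Pool.Agent.H42.TR
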